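import Pool.Agent.H305R2.MertensE

set_option autoImplicit false

/-!
# Densities of the sieve for prime triples and the constant of Hardy and Littlewood
-/

namespace Pool.Agent.L5helper16.RG

open Finset Filter Topology

/-- the product of `1 - 1 / p` -/
noncomputable def P1 (z : ℕ) : ℝ := ∏ p ∈ (Icc 1 z).filter Nat.Prime, (1 - 1 / (p : ℝ))

lemma P1_lim : Tendsto (fun z : ℕ => P1 z * Real.log z) atTop
    (𝓝 (Real.exp (-Real.eulerMascheroniConstant))) := by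
  have h := Pool.Agent.H305R2.mertens_three.inv₀ (Real.exp_pos _).ne'
  rw [← Real.exp_neg] at h
  refine h.congr (fun z => ?_)
  rw [inv_div, Finset.prod_inv_distrib, div_inv_eq_mul, mul_comm]
  unfold P1
  simp only [one_div]

/-- the factor of the constant -/
noncomputable def fac (p : ℕ) : ℝ := (p : ℝ) ^ 2 * (p - 3) / (p - 1) ^ 3

/-- the product of the factors for `p ≥ 7` -/
noncomputable def pr (z : ℕ) : ℝ := ∏ p ∈ (Icc 7 z).filter Nat.Prime, fac p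

lemma fac_eq (p : ℕ) (hp : 7 ≤ p) : fac p = 1 - (3 * p - 1) / ((p : ℝ) - 1) ^ 3 := by
  have hp' : (7 : ℝ) ≤ p := by exact_mod_cast hp
  have h0 : (p : ℝ) - 1 ≠ 0 := by linarith
  unfold fac
  rw [eq_sub_iff_add_eq, ← add_div, div_eq_one_iff_eq (pow_ne_zero 3 h0)]
  ring

lemma fac_bd (p : ℕ) (hp : 7 ≤ p) : 0 ≤ fac p ∧ fac p ≤ 1 ∧
    1 - fac p ≤ 4 * (1 / ((p : ℝ) - 1) - 1 / p) := by
  have hp' : (7 : ℝ) ≤ p := by exact_mod_cast hp
  have h1 : (0 : ℝ) < p - 1 := by linarith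
  have h3 : (0 : ℝ) < (p - 1 : ℝ) ^ 3 := by positivity
  refine ⟨?_, ?_, ?_⟩
  · unfold fac
    apply div_nonneg _ h3.le
    exact mul_nonneg (by positivity) (by linarith)
  · rw [fac_eq p hp]
    have : 0 ≤ (3 * p - 1) / ((p : ℝ) - 1) ^ 3 := div_nonneg (by linarith) h3.le
    linarith
  · rw [fac_eq p hp, sub_sub_cancel]
    have e : 4 * (1 / ((p : ℝ) - 1) - 1 / p) = 4 / (p * (p - 1)) := by
      field_simp
      ring
    rw [e, div_le_div_iff₀ h3 (by positivity)]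
    have h2 : (3 * p - 1) * (p * (p - 1) : ℝ) ≤ 4 * (p - 1) ^ 2 * (p - 1) := by
      have h4 : (3 * p - 1) * (p : ℝ) ≤ 4 * (p - 1) ^ 2 := by nlinarith
      have := mul_le_mul_of_nonneg_right h4 h1.le
      nlinarith
    calc (3 * (p : ℝ) - 1) * (p * (p - 1)) ≤ 4 * (p - 1) ^ 2 * (p - 1) := h2
      _ = 4 * (p - 1) ^ 3 := by ring

lemma pr_succ (z : ℕ) (hz : 6 ≤ z) : pr (z + 1) = (if (z + 1).Prime then fac (z + 1) else 1) * pr z := by
  unfold pr
  rw [← Finset.insert_Icc_right_eq_Icc_add_one (by omega), Finset.filter_insert]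
  split_ifs with h
  · rw [Finset.prod_insert]
    simp
  · rw [one_mul]

lemma pr_bd (z : ℕ) (hz : 6 ≤ z) : 1 / 3 + 4 / (z : ℝ) ≤ pr z ∧ pr z ≤ 1 ∧ pr (z + 1) ≤ pr z := by
  induction z, hz using Nat.le_induction with
  | base =>
    have e : pr 6 = 1 := by
      unfold pr
      simp
    have e7 : pr 7 ≤ pr 6 := by
      rw [pr_succ 6 le_rfl, e, if_pos (by norm_num), mul_one]
      exact (fac_bd 7 le_rfl).2.1
    refine ⟨?_, e.le, e7⟩
    rw [e]
    norm_num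
  | succ z hz ih =>
    obtain ⟨h1, h2, h3⟩ := ih
    have hz' : (6 : ℝ) ≤ z := by exact_mod_cast hz
    obtain ⟨f1, f2, f3⟩ := fac_bd (z + 1) (by omega)
    have hlow : 1 / 3 + 4 / ((z + 1 : ℕ) : ℝ) ≤ pr (z + 1) := by
      rw [pr_succ z hz]
      push_cast at f3 ⊢
      rw [add_sub_cancel_right] at f3
      split_ifs with h
      · have h4 : (1 - fac (z + 1)) * pr z ≤ 1 - fac (z + 1) :=
          mul_le_of_le_one_right (by linarith) h2
        have e1 : 4 * (1 / (z : ℝ) - 1 / (z + 1)) = 4 / z - 4 / (z + 1) := by ring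
        rw [e1] at f3
        nlinarith
      · rw [one_mul]
        have : 4 / ((z : ℝ) + 1) ≤ 4 / z := div_le_div_of_nonneg_left (by norm_num) (by linarith) (by linarith)
        linarith
    have hup : pr (z + 1) ≤ 1 := h3.trans h2
    refine ⟨hlow, hup, ?_⟩
    rw [pr_succ (z + 1) (by omega)]
    have hpos : 0 ≤ pr (z + 1) := by
      refine le_trans ?_ hlow
      positivity
    split_ifs with h
    · exact mul_le_of_le_one_left hpos (fac_bd (z + 2) (by omega)).2.1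
    · rw [one_mul]

lemma pr_lim : ∃ d : ℝ, 0 < d ∧ Tendsto pr atTop (𝓝 d) := by
  have hanti : Antitone (fun n : ℕ => pr (n + 6)) := by
    apply antitone_nat_of_succ_le
    intro n
    have := (pr_bd (n + 6) (by omega)).2.2
    rw [show n + 1 + 6 = n + 6 + 1 by ring]
    exact this
  have hbdd : BddBelow (Set.range (fun n : ℕ => pr (n + 6))) := by
    refine ⟨1 / 3, ?_⟩
    rintro _ ⟨n, rfl⟩
    have := (pr_bd (n + 6) (by omega)).1
    have h2 : (0 : ℝ) ≤ 4 / ((n + 6 : ℕ) : ℝ) := by positivity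
    simp only
    linarith
  have h := tendsto_atTop_ciInf hanti hbdd
  refine ⟨_, ?_, (tendsto_add_atTop_iff_nat 6).1 h⟩
  refine lt_of_lt_of_le (show (0 : ℝ) < 1 / 3 by norm_num) (le_ciInf fun n => ?_)
  have := (pr_bd (n + 6) (by omega)).1
  have h2 : (0 : ℝ) ≤ 4 / ((n + 6 : ℕ) : ℝ) := by positivity
  linarith

lemma small (p : ℕ) (hp : p.Prime) (h : p < 7) : p = 2 ∨ p = 3 ∨ p = 5 := by
  interval_cases p <;> revert hp <;> decide

lemma split (g : ℕ → ℝ) (z : ℕ) (hz : 6 ≤ z) : ∏ p ∈ (Icc 1 z).filter Nat.Prime, g p =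
    g 2 * g 3 * g 5 * ∏ p ∈ (Icc 7 z).filter Nat.Prime, g p := by
  have e : (Icc 1 z).filter Nat.Prime = insert 2 (insert 3 (insert 5 ((Icc 7 z).filter Nat.Prime))) := by
    ext p
    simp only [mem_insert, mem_filter, mem_Icc]
    constructor
    · rintro ⟨⟨h1, h2⟩, h3⟩
      rcases Nat.lt_or_ge p 7 with h4 | h4
      · rcases small p h3 h4 with h5 | h5 | h5 <;> tauto
      · tauto
    · rintro (rfl | rfl | rfl | ⟨⟨h1, h2⟩, h3⟩)
      · exact ⟨⟨by omega, by omega⟩, by norm_num⟩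
      · exact ⟨⟨by omega, by omega⟩, by norm_num⟩
      · exact ⟨⟨by omega, by omega⟩, by norm_num⟩
      · exact ⟨⟨by omega, h2⟩, h3⟩
  rw [e, prod_insert (by simp), prod_insert (by simp), prod_insert (by simp)]
  ring

lemma split4 (g : ℕ → ℝ) (z : ℕ) (hz : 6 ≤ z) : ∏ p ∈ (Icc 4 z).filter Nat.Prime, g p =
    g 5 * ∏ p ∈ (Icc 7 z).filter Nat.Prime, g p := by
  have e : (Icc 4 z).filter Nat.Prime = insert 5 ((Icc 7 z).filter Nat.Prime) := by
    ext p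
    simp only [mem_insert, mem_filter, mem_Icc]
    constructor
    · rintro ⟨⟨h1, h2⟩, h3⟩
      rcases Nat.lt_or_ge p 7 with h4 | h4
      · rcases small p h3 h4 with h5 | h5 | h5
        · omega
        · omega
        · exact Or.inl h5
      · exact Or.inr ⟨⟨h4, h2⟩, h3⟩
    · rintro (rfl | ⟨⟨h1, h2⟩, h3⟩)
      · exact ⟨⟨by omega, by omega⟩, by norm_num⟩
      · exact ⟨⟨by omega, h2⟩, h3⟩
  rw [e, prod_insert (by simp)]

/-- `0` for the prime factors of `30`, otherwise `3` -/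
def nu3 (p : ℕ) : ℕ := if p ∣ 30 then 0 else 3

lemma nu3_big (p : ℕ) (hp : 7 ≤ p) (hpr : p.Prime) : nu3 p = 3 := by
  unfold nu3
  rw [if_neg]
  intro h
  have h2 : p ∣ 2 * (3 * 5) := by simpa using h
  rcases (Nat.Prime.dvd_mul hpr).1 h2 with h3 | h3
  · have := Nat.le_of_dvd (by norm_num) h3
    omega
  · rcases (Nat.Prime.dvd_mul hpr).1 h3 with h4 | h4
    · have := Nat.le_of_dvd (by norm_num) h4
      omega
    · have := Nat.le_of_dvd (by norm_num) h4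
      omega

/-- the relative density -/
noncomputable def W3 (z : ℕ) : ℝ :=
  ∏ p ∈ (Icc 1 z).filter Nat.Prime, (1 - (nu3 p : ℝ) / p) / (1 - 1 / (p : ℝ))

/-- the density -/
noncomputable def V3 (z : ℕ) : ℝ :=
  ∏ p ∈ (Icc 1 z).filter Nat.Prime, (1 - (nu3 p : ℝ) / p)

lemma P1_pos (z : ℕ) : 0 < P1 z := by
  unfold P1
  apply prod_pos
  intro p hp
  have h2 : (2 : ℝ) ≤ p := by exact_mod_cast (mem_filter.1 hp).2.two_le
  have : 1 / (p : ℝ) ≤ 1 / 2 := one_div_le_one_div_of_le (by norm_num) h2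
  linarith

lemma V3_eq (z : ℕ) : V3 z = W3 z * P1 z := by
  unfold V3 W3 P1
  rw [← prod_mul_distrib]
  apply prod_congr rfl
  intro p hp
  have h2 : (2 : ℝ) ≤ p := by exact_mod_cast (mem_filter.1 hp).2.two_le
  have : 1 / (p : ℝ) ≤ 1 / 2 := one_div_le_one_div_of_le (by norm_num) h2
  rw [div_mul_cancel₀]
  linarith

lemma W3_eq (z : ℕ) (hz : 6 ≤ z) : W3 z = (15 / 4) ^ 3 * pr z * P1 z ^ 2 := by
  have h1 : P1 z = 4 / 15 * ∏ p ∈ (Icc 7 z).filter Nat.Prime, (1 - 1 / (p : ℝ)) := by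
    unfold P1
    rw [split (fun p => 1 - 1 / (p : ℝ)) z hz]
    norm_num
  have h2 : W3 z = 15 / 4 * ∏ p ∈ (Icc 7 z).filter Nat.Prime, ((1 - (nu3 p : ℝ) / p) / (1 - 1 / (p : ℝ))) := by
    unfold W3
    rw [split (fun p => (1 - (nu3 p : ℝ) / p) / (1 - 1 / (p : ℝ))) z hz]
    have e2 : nu3 2 = 0 := by decide
    have e3 : nu3 3 = 0 := by decide
    have e5 : nu3 5 = 0 := by decide
    rw [e2, e3, e5]
    norm_num
  have h3 : ∏ p ∈ (Icc 7 z).filter Nat.Prime, ((1 - (nu3 p : ℝ) / p) / (1 - 1 / (p : ℝ))) =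
      pr z * (∏ p ∈ (Icc 7 z).filter Nat.Prime, (1 - 1 / (p : ℝ))) ^ 2 := by
    unfold pr
    rw [← prod_pow, ← prod_mul_distrib]
    apply prod_congr rfl
    intro p hp
    obtain ⟨hp1, hp2⟩ := mem_filter.1 hp
    rw [mem_Icc] at hp1
    have h7 : (7 : ℝ) ≤ p := by exact_mod_cast hp1.1
    have h0 : (p : ℝ) ≠ 0 := by linarith
    have h10 : (p : ℝ) - 1 ≠ 0 := by linarith
    rw [nu3_big p hp1.1 hp2]
    unfold fac
    have e1 : (1 - 1 / (p : ℝ)) = (p - 1) / p := by field_simp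
    have e2 : (1 - ((3 : ℕ) : ℝ) / (p : ℝ)) = (p - 3) / p := by
      push_cast
      field_simp
    rw [e1, e2]
    field_simp
  rw [h2, h3, h1]
  ring

lemma floor_log (r : ℕ) (hr : 1 ≤ r) : Tendsto (fun N : ℕ => Real.log N / Real.log ⌊(N : ℝ) ^ (1 / (r : ℝ))⌋₊)
    atTop (𝓝 r) := by
  have hr0 : (0 : ℝ) < r := by exact_mod_cast hr
  have hy : Tendsto (fun N : ℕ => (N : ℝ) ^ (1 / (r : ℝ))) atTop atTop :=
    (tendsto_rpow_atTop (by positivity)).comp tendsto_natCast_atTop_atTop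
  have h1 : Tendsto (fun N : ℕ => Real.log ((⌊(N : ℝ) ^ (1 / (r : ℝ))⌋₊ : ℝ) / (N : ℝ) ^ (1 / (r : ℝ)))) atTop
      (𝓝 (Real.log 1)) :=
    ((Real.continuousAt_log one_ne_zero).tendsto.comp (tendsto_nat_floor_div_atTop.comp hy))
  rw [Real.log_one] at h1
  have h2 : Tendsto (fun N : ℕ => Real.log N) atTop atTop :=
    Real.tendsto_log_atTop.comp tendsto_natCast_atTop_atTop
  have h3 : Tendsto (fun N : ℕ => Real.log ((⌊(N : ℝ) ^ (1 / (r : ℝ))⌋₊ : ℝ) / (N : ℝ) ^ (1 / (r : ℝ))) /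
      Real.log N + 1 / r) atTop (𝓝 (0 + 1 / r)) :=
    (h1.div_atTop h2).add_const _
  rw [zero_add] at h3
  have h4 := h3.inv₀ (by positivity)
  have e : ((1 : ℝ) / r)⁻¹ = r := by rw [one_div, inv_inv]
  rw [e] at h4
  refine h4.congr' ?_
  filter_upwards [h2.eventually_gt_atTop 0, hy.eventually_ge_atTop 2, eventually_gt_atTop 0] with N hN1 hN2 hN3
  have hN0 : (0 : ℝ) < N := by exact_mod_cast hN3
  have hf : (2 : ℝ) ≤ ⌊(N : ℝ) ^ (1 / (r : ℝ))⌋₊ := by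
    exact_mod_cast Nat.le_floor hN2
  have hne : Real.log N ≠ 0 := hN1.ne'
  rw [Real.log_div (by linarith) (by linarith), Real.log_rpow hN0]
  have e2 : (Real.log ⌊(N : ℝ) ^ (1 / (r : ℝ))⌋₊ - 1 / (r : ℝ) * Real.log N) / Real.log N + 1 / r =
      Real.log ⌊(N : ℝ) ^ (1 / (r : ℝ))⌋₊ / Real.log N := by
    rw [sub_div, mul_div_cancel_right₀ _ hne]
    ring
  rw [e2, inv_div]

/-- **The densities**, `z = ⌊N ^ (1 / r)⌋`. -/
theorem dens (r : ℕ) (hr : 1 ≤ r) {d : ℝ} (hd : Tendsto pr atTop (𝓝 d)) :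
    Tendsto (fun N : ℕ => W3 ⌊(N : ℝ) ^ (1 / (r : ℝ))⌋₊ * Real.log N ^ 2) atTop
      (𝓝 ((15 / 4) ^ 3 * d * (r * Real.exp (-Real.eulerMascheroniConstant)) ^ 2)) ∧
    Tendsto (fun N : ℕ => V3 ⌊(N : ℝ) ^ (1 / (r : ℝ))⌋₊ * Real.log N ^ 3) atTop
      (𝓝 ((15 / 4) ^ 3 * d * (r * Real.exp (-Real.eulerMascheroniConstant)) ^ 3)) := by
  have hr0 : (0 : ℝ) < r := by exact_mod_cast hr
  have hy : Tendsto (fun N : ℕ => (N : ℝ) ^ (1 / (r : ℝ))) atTop atTop :=
    (tendsto_rpow_atTop (by positivity)).comp tendsto_natCast_atTop_atTop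
  have hz : Tendsto (fun N : ℕ => ⌊(N : ℝ) ^ (1 / (r : ℝ))⌋₊) atTop atTop := tendsto_nat_floor_atTop.comp hy
  have h1 := hd.comp hz
  have h2 := P1_lim.comp hz
  have h3 := floor_log r hr
  have hev : ∀ᶠ N : ℕ in atTop, 6 ≤ ⌊(N : ℝ) ^ (1 / (r : ℝ))⌋₊ := hz.eventually_ge_atTop 6
  constructor
  · have h4 := ((h1.const_mul ((15 / 4) ^ 3)).mul (h2.pow 2)).mul (h3.pow 2)
    refine (h4.congr' ?_).trans (le_of_eq ?_)
    · filter_upwards [hev] with N hN
      simp only [Function.comp]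
      have hl : Real.log (⌊(N : ℝ) ^ (1 / (r : ℝ))⌋₊ : ℝ) ≠ 0 := by
        apply (Real.log_pos _).ne'
        exact_mod_cast (by omega : 1 < ⌊(N : ℝ) ^ (1 / (r : ℝ))⌋₊)
      rw [W3_eq _ hN]
      field_simp
    · congr 1
      ring
  · have h4 := ((h1.const_mul ((15 / 4) ^ 3)).mul (h2.pow 3)).mul (h3.pow 3)
    refine (h4.congr' ?_).trans (le_of_eq ?_)
    · filter_upwards [hev] with N hN
      simp only [Function.comp]
      have hl : Real.log (⌊(N : ℝ) ^ (1 / (r : ℝ))⌋₊ : ℝ) ≠ 0 := by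
        apply (Real.log_pos _).ne'
        exact_mod_cast (by omega : 1 < ⌊(N : ℝ) ^ (1 / (r : ℝ))⌋₊)
      rw [V3_eq, W3_eq _ hN]
      field_simp
    · congr 1
      ring

end Pool.Agent.L5helper16.RG
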