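import Pool.Agent.L5helper16.QX.Pol
import Pool.Agent.Y781.JR.Dens
import Pool.Agent.L5helper16.RG.Dens
import Pool.Agent.Y879.PR.Full
import Pool.Agent.TH464.PW.Quad

set_option autoImplicit false

/-!
# The system `n`, `n² + n + 1`: densities and the constant
-/

namespace Pool.Agent.L5helper16.RG

open Finset Filter Topology Polynomial
open Pool.Agent.W123.RP Pool.Agent.H373R2.T7 Pool.Agent.W123.RU Pool.Agent.W123.RU.Poly
open Pool.Agent.TH464.PW

/-- `1`, `-1`, `0` according as `n ≡ 1, 2, 0` modulo `3` -/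
def chi (n : ℕ) : ℤ := if n % 3 = 1 then 1 else if n % 3 = 2 then -1 else 0

lemma jac (p : ℕ) (hp : p.Prime) (h2 : p ≠ 2) : jacobiSym (-3) p = chi p := by
  have hodd : Odd p := hp.odd_of_ne_two h2
  have hmod : p % 2 = 1 := Nat.odd_iff.1 hodd
  have h1 : jacobiSym (-3) p = jacobiSym (p : ℤ) 3 := by
    rw [jacobiSym.neg 3 hodd]
    have h3 : jacobiSym ((3 : ℕ) : ℤ) p = (-1) ^ (3 / 2 * (p / 2)) * jacobiSym (p : ℤ) 3 :=
      jacobiSym.quadratic_reciprocity (by decide) hodd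
    have h4 : jacobiSym (3 : ℤ) p = (-1) ^ (3 / 2 * (p / 2)) * jacobiSym (p : ℤ) 3 := by
      exact_mod_cast h3
    rw [h4, ZMod.χ₄_eq_neg_one_pow hmod]
    have e : 3 / 2 * (p / 2) = p / 2 := by norm_num
    rw [e, ← mul_assoc, ← mul_pow]
    norm_num
  rw [h1, jacobiSym.mod_left]
  unfold chi
  have h5 : ((p : ℤ) % ((3 : ℕ) : ℤ)) = ((p % 3 : ℕ) : ℤ) := by push_cast; rfl
  rw [h5]
  have h6 : p % 3 < 3 := Nat.mod_lt _ (by norm_num)
  interval_cases p % 3
  · norm_num
  · norm_num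
  · norm_num

/-- the two polynomials -/
noncomputable def ff : Fin 2 → ℤ[X] := ![X, quad 1 1 1]

lemma ff_Q (p n : ℕ) : Q ff p n ↔ (p ∣ n ∨ (p : ℤ) ∣ (Pool.Agent.L5helper16.QX.FA 1).eval (n : ℤ) + 0) := by
  unfold Q ff
  rw [Pool.Agent.L5helper16.QX.FA_eval]
  constructor
  · rintro ⟨i, hi⟩
    fin_cases i
    · left
      have h : (p : ℤ) ∣ (n : ℤ) := by simpa using hi
      exact_mod_cast h
    · right
      have h : (p : ℤ) ∣ (quad 1 1 1).eval (n : ℤ) := by simpa using hi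
      rw [quad_eval] at h
      have e : (n : ℤ) ^ 2 + n + 1 + 0 = 1 * n ^ 2 + 1 * n + 1 := by ring
      rw [e]
      exact h
  · rintro (h | h)
    · refine ⟨0, ?_⟩
      have : (p : ℤ) ∣ (n : ℤ) := by exact_mod_cast h
      simpa using this
    · refine ⟨1, ?_⟩
      have : (p : ℤ) ∣ (quad 1 1 1).eval (n : ℤ) := by
        rw [quad_eval]
        have e : (n : ℤ) ^ 2 + n + 1 + 0 = 1 * n ^ 2 + 1 * n + 1 := by ring
        rw [← e]
        exact h
      simpa using this

lemma nu_ff (p : ℕ) (hp : p.Prime) : (nuB (Q ff) p : ℤ) = 2 + chi p := by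
  classical
  have h1 : nuB (Q ff) p = 1 + Pool.Agent.Y882.PX.ro (Pool.Agent.L5helper16.QX.FA 1) 0 p := by
    rw [Pool.Agent.Y882.PX.ro_eq]
    unfold nuB
    have e : (range p).filter (fun r => Q ff p r) = {0} ∪
        (range p).filter (fun n : ℕ => (p : ℤ) ∣ (Pool.Agent.L5helper16.QX.FA 1).eval (n : ℤ) + 0) := by
      ext n
      rw [mem_filter, mem_union, mem_singleton, mem_filter, mem_range, ff_Q]
      constructor
      · rintro ⟨h1, h2 | h2⟩
        · left
          exact Nat.eq_zero_of_dvd_of_lt h2 h1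
        · exact Or.inr ⟨h1, h2⟩
      · rintro (rfl | ⟨h1, h2⟩)
        · exact ⟨hp.pos, Or.inl (dvd_zero p)⟩
        · exact ⟨h1, Or.inr h2⟩
    rw [e, card_union_of_disjoint, card_singleton]
    rw [disjoint_singleton_left, mem_filter]
    rintro ⟨_, h⟩
    rw [Pool.Agent.L5helper16.QX.FA_eval] at h
    have h2 : (p : ℤ) ∣ 1 := by simpa using h
    have h3 : p ∣ 1 := by exact_mod_cast h2
    exact hp.one_lt.ne' (Nat.dvd_one.1 h3)
  rw [h1]
  by_cases h2 : p = 2
  · subst h2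
    rw [Pool.Agent.L5helper16.QX.ro_two 1 odd_one]
    decide
  · rw [Pool.Agent.L5helper16.QX.ro_odd 1 p hp h2]
    have h3 := Pool.Agent.Y882.SI.ro_quad 3 p hp h2
    have e : (4 * 1 - 1 : ℤ) = 3 := by norm_num
    rw [jac p hp h2] at h3
    rw [e]
    push_cast
    rw [h3]
    ring

lemma chi_cases (p : ℕ) : (chi p : ℝ) = 1 ∨ (chi p : ℝ) = -1 ∨ (chi p : ℝ) = 0 := by
  unfold chi
  split_ifs
  · left; norm_num
  · right; left; norm_num
  · right; right; norm_num

/-- the factors of the absolutely convergent part -/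
noncomputable def gq (p : ℕ) : ℝ := 1 - (1 + (chi p : ℝ)) / (((p : ℝ) - 1) * (p - 1 - chi p))

/-- the absolutely convergent part -/
noncomputable def pq (z : ℕ) : ℝ := ∏ p ∈ (Icc 5 z).filter Nat.Prime, gq p

lemma gq_bd (p : ℕ) (hp : 5 ≤ p) : 0 ≤ gq p ∧ gq p ≤ 1 ∧
    1 - gq p ≤ 2 * (1 / ((p : ℝ) - 2) - 1 / (p - 1)) := by
  have hp' : (5 : ℝ) ≤ p := by exact_mod_cast hp
  have h1 : (0 : ℝ) < p - 1 := by linarith
  have h2 : (0 : ℝ) < p - 2 := by linarith
  have e : 2 * (1 / ((p : ℝ) - 2) - 1 / (p - 1)) = 2 / ((p - 1) * (p - 2)) := by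
    field_simp
    ring
  have hb : (1 + (chi p : ℝ)) / (((p : ℝ) - 1) * (p - 1 - chi p)) ≤ 2 / ((p - 1) * (p - 2)) ∧
      0 ≤ (1 + (chi p : ℝ)) / (((p : ℝ) - 1) * (p - 1 - chi p)) := by
    rcases chi_cases p with h | h | h
    · rw [h]
      have e1 : (p : ℝ) - 1 - 1 = p - 2 := by ring
      rw [e1]
      constructor
      · norm_num
      · positivity
    · rw [h]
      norm_num
      positivity
    · rw [h]
      constructor
      · rw [add_zero, sub_zero]
        apply div_le_div₀ (by norm_num) (by norm_num) (by positivity)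
        apply mul_le_mul_of_nonneg_left _ h1.le
        linarith
      · rw [sub_zero]
        positivity
  have h3 : 2 / ((p - 1) * (p - 2) : ℝ) ≤ 1 := by
    rw [div_le_one (by positivity)]
    nlinarith
  unfold gq
  refine ⟨by linarith [hb.1], by linarith [hb.2], ?_⟩
  rw [e, sub_sub_cancel]
  exact hb.1

lemma pq_succ (z : ℕ) (hz : 4 ≤ z) : pq (z + 1) = (if (z + 1).Prime then gq (z + 1) else 1) * pq z := by
  unfold pq
  rw [← Finset.insert_Icc_right_eq_Icc_add_one (by omega), Finset.filter_insert]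
  split_ifs with h
  · rw [Finset.prod_insert]
    simp
  · rw [one_mul]

lemma pq_bd (z : ℕ) (hz : 4 ≤ z) : 1 / 3 + 2 / ((z : ℝ) - 1) ≤ pq z ∧ pq z ≤ 1 ∧ pq (z + 1) ≤ pq z := by
  induction z, hz using Nat.le_induction with
  | base =>
    have e : pq 4 = 1 := by
      unfold pq
      simp
    have e7 : pq 5 ≤ pq 4 := by
      rw [pq_succ 4 le_rfl, e, if_pos (by norm_num), mul_one]
      exact (gq_bd 5 le_rfl).2.1
    refine ⟨?_, e.le, e7⟩
    rw [e]
    norm_num
  | succ z hz ih =>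
    obtain ⟨h1, h2, h3⟩ := ih
    have hz' : (4 : ℝ) ≤ z := by exact_mod_cast hz
    obtain ⟨f1, f2, f3⟩ := gq_bd (z + 1) (by omega)
    have hlow : 1 / 3 + 2 / (((z + 1 : ℕ) : ℝ) - 1) ≤ pq (z + 1) := by
      rw [pq_succ z hz]
      push_cast at f3 ⊢
      have e0 : (z : ℝ) + 1 - 1 = z := by ring
      have e1 : (z : ℝ) + 1 - 2 = z - 1 := by ring
      rw [e0, e1] at f3
      rw [e0]
      have e2 : 2 * (1 / ((z : ℝ) - 1) - 1 / z) = 2 / (z - 1) - 2 / z := by ring
      rw [e2] at f3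
      have hz0 : (0 : ℝ) < z := by linarith
      split_ifs with h
      · have h4 : (1 - gq (z + 1)) * pq z ≤ 1 - gq (z + 1) :=
          mul_le_of_le_one_right (by linarith) h2
        nlinarith
      · rw [one_mul]
        have : 2 / (z : ℝ) ≤ 2 / (z - 1) :=
          div_le_div_of_nonneg_left (by norm_num) (by linarith) (by linarith)
        linarith
    have hup : pq (z + 1) ≤ 1 := h3.trans h2
    refine ⟨hlow, hup, ?_⟩
    rw [pq_succ (z + 1) (by omega)]
    have hpos : 0 ≤ pq (z + 1) := by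
      refine le_trans ?_ hlow
      push_cast
      have : (0 : ℝ) ≤ 2 / ((z : ℝ) + 1 - 1) := div_nonneg (by norm_num) (by linarith)
      linarith
    split_ifs with h
    · exact mul_le_of_le_one_left hpos (gq_bd (z + 2) (by omega)).2.1
    · rw [one_mul]

lemma pq_lim : ∃ d : ℝ, 0 < d ∧ Tendsto pq atTop (𝓝 d) := by
  have hlow : ∀ n : ℕ, 1 / 3 ≤ pq (n + 4) := by
    intro n
    have h := (pq_bd (n + 4) (by omega)).1
    have h2 : (0 : ℝ) ≤ 2 / (((n + 4 : ℕ) : ℝ) - 1) := by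
      apply div_nonneg (by norm_num)
      push_cast
      have : (0 : ℝ) ≤ n := Nat.cast_nonneg n
      linarith
    linarith
  have hanti : Antitone (fun n : ℕ => pq (n + 4)) := by
    apply antitone_nat_of_succ_le
    intro n
    have := (pq_bd (n + 4) (by omega)).2.2
    rw [show n + 1 + 4 = n + 4 + 1 by ring]
    exact this
  have hbdd : BddBelow (Set.range (fun n : ℕ => pq (n + 4))) := by
    refine ⟨1 / 3, ?_⟩
    rintro _ ⟨n, rfl⟩
    exact hlow n
  have h := tendsto_atTop_ciInf hanti hbdd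
  exact ⟨_, lt_of_lt_of_le (show (0 : ℝ) < 1 / 3 by norm_num) (le_ciInf hlow),
    (tendsto_add_atTop_iff_nat 4).1 h⟩

lemma small5 (p : ℕ) (hp : p.Prime) (h : p < 5) : p = 2 ∨ p = 3 := by
  interval_cases p <;> revert hp <;> decide

lemma split5 (g : ℕ → ℝ) (z : ℕ) (hz : 4 ≤ z) : ∏ p ∈ (Icc 1 z).filter Nat.Prime, g p =
    g 2 * g 3 * ∏ p ∈ (Icc 5 z).filter Nat.Prime, g p := by
  have e : (Icc 1 z).filter Nat.Prime = insert 2 (insert 3 ((Icc 5 z).filter Nat.Prime)) := by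
    ext p
    simp only [mem_insert, mem_filter, mem_Icc]
    constructor
    · rintro ⟨⟨h1, h2⟩, h3⟩
      rcases Nat.lt_or_ge p 5 with h4 | h4
      · rcases small5 p h3 h4 with h5 | h5 <;> tauto
      · tauto
    · rintro (rfl | rfl | ⟨⟨h1, h2⟩, h3⟩)
      · exact ⟨⟨by omega, by omega⟩, by norm_num⟩
      · exact ⟨⟨by omega, by omega⟩, by norm_num⟩
      · exact ⟨⟨by omega, h2⟩, h3⟩
  rw [e, prod_insert (by simp), prod_insert (by simp)]
  ring

/-- twice the partial products of the constant `H` -/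
noncomputable def Hp (z : ℕ) : ℝ :=
  ∏ p ∈ (Icc 1 z).filter Nat.Prime, (1 - 1 / (p : ℝ))⁻¹ ^ 2 * (1 - (2 + (chi p : ℝ)) / p)

lemma RR3 (z : ℕ) (hz : 4 ≤ z) : Pool.Agent.Y781.JR.RR 3 (z + 1) =
    ∏ p ∈ (Icc 5 z).filter Nat.Prime, (1 - (chi p : ℝ) / ((p : ℝ) - 1)) := by
  unfold Pool.Agent.Y781.JR.RR
  have e : (range (z + 1)).filter (fun p : ℕ => p.Prime ∧ p ≠ 2) = insert 3 ((Icc 5 z).filter Nat.Prime) := by
    ext p
    simp only [mem_insert, mem_filter, mem_Icc, mem_range]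
    constructor
    · rintro ⟨h1, h2, h3⟩
      rcases Nat.lt_or_ge p 5 with h4 | h4
      · rcases small5 p h2 h4 with h5 | h5
        · exact absurd h5 h3
        · exact Or.inl h5
      · exact Or.inr ⟨⟨h4, by omega⟩, h2⟩
    · rintro (rfl | ⟨⟨h1, h2⟩, h3⟩)
      · exact ⟨by omega, by norm_num, by norm_num⟩
      · exact ⟨by omega, h3, by omega⟩
  rw [e, prod_insert (by simp)]
  have e3 : jacobiSym (-3) 3 = 0 := by
    rw [jac 3 Nat.prime_three (by norm_num)]
    decide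
  have h1 : (1 - ((jacobiSym (-3) 3 : ℤ) : ℝ) / (((3 : ℕ) : ℝ) - 1)) = 1 := by
    rw [e3]
    norm_num
  rw [h1, one_mul]
  apply prod_congr rfl
  intro p hp
  obtain ⟨hp1, hp2⟩ := mem_filter.1 hp
  rw [mem_Icc] at hp1
  rw [jac p hp2 (by omega)]

lemma Hp_eq (z : ℕ) (hz : 4 ≤ z) : Hp z = 3 / 2 * Pool.Agent.Y781.JR.RR 3 (z + 1) * pq z := by
  rw [RR3 z hz]
  unfold Hp pq
  rw [split5 (fun p => (1 - 1 / (p : ℝ))⁻¹ ^ 2 * (1 - (2 + (chi p : ℝ)) / p)) z hz, mul_assoc (3 / 2 : ℝ), ← prod_mul_distrib]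
  have e2 : chi 2 = -1 := by decide
  have e3 : chi 3 = 0 := by decide
  rw [e2, e3]
  congr 1
  · norm_num
  · apply prod_congr rfl
    intro p hp
    obtain ⟨hp1, hp2⟩ := mem_filter.1 hp
    rw [mem_Icc] at hp1
    have h5 : (5 : ℝ) ≤ p := by exact_mod_cast hp1.1
    have h0 : (p : ℝ) ≠ 0 := by linarith
    have h10 : (p : ℝ) - 1 ≠ 0 := by linarith
    unfold gq
    have e1 : (1 - 1 / (p : ℝ)) = (p - 1) / p := by field_simp
    rw [e1]
    rcases chi_cases p with h | h | h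
    · rw [h]
      have h11 : (p : ℝ) - 1 - 1 ≠ 0 := by linarith
      field_simp
      ring
    · rw [h]
      have h11 : (p : ℝ) - 1 - -1 ≠ 0 := by linarith
      field_simp
      ring
    · rw [h]
      have h11 : (p : ℝ) - 1 - 0 ≠ 0 := by linarith
      field_simp
      ring

lemma Hp_lim : ∃ H : ℝ, 0 < H ∧ Tendsto (fun z => 1 / 2 * Hp z) atTop (𝓝 H) := by
  obtain ⟨C, hC, hR⟩ := Pool.Agent.Y781.JR.RR_conv 3 (by
    rintro ⟨x, hx⟩
    have : 0 ≤ x * x := mul_self_nonneg x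
    omega)
  obtain ⟨d, hd, hq⟩ := pq_lim
  refine ⟨3 / 4 * C * d, by positivity, ?_⟩
  have h1 := ((hR.comp (tendsto_add_atTop_nat 1)).const_mul (3 / 4)).mul hq
  refine h1.congr' ?_
  filter_upwards [eventually_ge_atTop 4] with z hz
  rw [Hp_eq z hz]
  simp only [Function.comp]
  ring

lemma Vq_ff (z : ℕ) : Vq (Q ff) z = Hp z * P1 z ^ 2 := by
  unfold Vq Hp P1
  rw [← prod_pow, ← prod_mul_distrib]
  apply prod_congr rfl
  intro p hp
  have hp2 := (mem_pz.1 hp).2
  have h2 : (2 : ℝ) ≤ p := by exact_mod_cast hp2.two_le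
  have h3 : 1 / (p : ℝ) ≤ 1 / 2 := one_div_le_one_div_of_le (by norm_num) h2
  have h4 : (1 : ℝ) - 1 / p ≠ 0 := by linarith
  have h5 : (nuB (Q ff) p : ℝ) = 2 + (chi p : ℝ) := by exact_mod_cast nu_ff p hp2
  rw [h5, mul_comm ((1 - 1 / (p : ℝ))⁻¹ ^ 2), mul_assoc, ← mul_pow, inv_mul_cancel₀ h4, one_pow, mul_one]

lemma Vz_P1 (z : ℕ) : Vz z = P1 z := rfl

lemma us_ff (H U : ℝ) (hH : 1 ≤ H) : Pool.Agent.Y879.GL.US 2 2 H U ff where
  irr := by
    intro i
    fin_cases i
    · exact irreducible_X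
    · exact quad_irr 1 1 1 one_ne_zero (by
        intro p hp h
        have h1 : (p : ℤ) ∣ 1 := h.1
        have h2 : p ∣ 1 := by exact_mod_cast h1
        exact hp.one_lt.ne' (Nat.dvd_one.1 h2)) (by
        rintro ⟨x, hx⟩
        have : 0 ≤ x * x := mul_self_nonneg x
        omega)
  deg := by
    intro i
    fin_cases i
    · change (X : ℤ[X]).natDegree ≠ 0
      rw [natDegree_X]
      norm_num
    · change (quad 1 1 1).natDegree ≠ 0
      rw [quad_deg 1 1 1 one_ne_zero]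
      norm_num
  degD := by
    intro i
    fin_cases i
    · change (X : ℤ[X]).natDegree ≤ 2
      rw [natDegree_X]
      norm_num
    · change (quad 1 1 1).natDegree ≤ 2
      rw [quad_deg 1 1 1 one_ne_zero]
  hgt := by
    intro i n
    have h1 : |((ff i).coeff n)| ≤ 1 := by
      fin_cases i
      · change |(X : ℤ[X]).coeff n| ≤ 1
        rw [coeff_X]
        split_ifs <;> simp
      · change |(quad 1 1 1).coeff n| ≤ 1
        unfold quad
        simp only [coeff_add, coeff_C_mul, coeff_X_pow, coeff_X, coeff_C]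
        rcases n with _ | _ | _ | n
        · simp
        · simp
        · simp
        · simp
    have h2 : |(((ff i).coeff n : ℤ) : ℝ)| ≤ 1 := by exact_mod_cast h1
    linarith
  adm := by
    intro p hp
    by_cases h3 : p = 3
    · subst h3
      refine ⟨2, fun i => ?_⟩
      fin_cases i
      · change ¬ (((3 : ℕ) : ℤ)) ∣ (X : ℤ[X]).eval (((2 : ℕ) : ℤ))
        rw [eval_X]
        norm_num
      · change ¬ (((3 : ℕ) : ℤ)) ∣ (quad 1 1 1).eval (((2 : ℕ) : ℤ))
        rw [quad_eval]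
        norm_num
    · refine ⟨1, fun i => ?_⟩
      fin_cases i
      · change ¬ (p : ℤ) ∣ (X : ℤ[X]).eval (((1 : ℕ) : ℤ))
        rw [eval_X]
        intro h
        have h2 : p ∣ 1 := by exact_mod_cast h
        exact hp.one_lt.ne' (Nat.dvd_one.1 h2)
      · change ¬ (p : ℤ) ∣ (quad 1 1 1).eval (((1 : ℕ) : ℤ))
        rw [quad_eval]
        intro h
        apply h3
        have h1 : (p : ℤ) ∣ 3 := by simpa using h
        have h2 : p ∣ 3 := by exact_mod_cast h1
        exact (Nat.prime_dvd_prime_iff_eq hp Nat.prime_three).1 h2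
  tr := by
    intro i j t ht _ h
    have hdeg : ∀ f g : ℤ[X], Associated f (g.comp (X + C (t : ℤ))) → f.natDegree = g.natDegree := by
      intro f g h
      rw [natDegree_eq_of_degree_eq (degree_eq_degree_of_associated h), Pool.Agent.Y879.GL.deg_shift]
    have ht' : (t : ℤ) ≠ 0 := by exact_mod_cast (by omega : t ≠ 0)
    fin_cases i <;> fin_cases j
    · exact Pool.Agent.Y879.GL.no_self X (by rw [natDegree_X]; norm_num) t ht' h
    · have := hdeg X (quad 1 1 1) h
      rw [natDegree_X, quad_deg 1 1 1 one_ne_zero] at this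
      omega
    · have := hdeg (quad 1 1 1) X h
      rw [natDegree_X, quad_deg 1 1 1 one_ne_zero] at this
      omega
    · exact Pool.Agent.Y879.GL.no_self (quad 1 1 1) (by
        rw [quad_deg 1 1 1 one_ne_zero]
        norm_num) t ht' h

end Pool.Agent.L5helper16.RG
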