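import Pool.Agent.TH977.PW.Inst

set_option autoImplicit false

/-!
# Upper bounds for rough values of a system in short intervals, in the notation of `TH977.PW`
-/

namespace Pool.Agent.L5helper16.RG

open Polynomial Finset Filter
open Pool.Agent.W123.RP Pool.Agent.H373R2.T7 Pool.Agent.W123.RU Pool.Agent.W123.RU.Poly
open Pool.Agent.TH977.PW

variable {ι : Type} [Fintype ι]

open Classical in
/-- upper bound -/
theorem up [Nonempty ι] (f : ι → ℤ[X]) (hf : Sys f) (θ : ℝ) (hθ : 0 < θ) (hθ1 : θ ≤ 1) :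
    ∃ r0 : ℕ, 2 ≤ r0 ∧ ∀ r : ℕ, r0 ≤ r → ∃ C : ℝ, 0 < C ∧ ∀ᶠ X : ℕ in atTop, ∀ Y : ℕ,
      (X : ℝ) ^ θ ≤ Y → 2 * Y ≤ X →
        (N {m | Rough f r m} X (X + Y) : ℝ) ≤ C * Y / Real.log X ^ (Fintype.card ι) := by
  obtain ⟨K1, hK1, hup⟩ := upper_input f hf θ hθ hθ1
  refine ⟨K1, hK1, ?_⟩
  intro r hr
  obtain ⟨C1, C2, hC1, hC2, hin⟩ := hup (2 * r) (by omega)
  refine ⟨C1, hC1, ?_⟩
  filter_upwards [hin 1 one_pos, eventually_ge_atTop 4] with X hX hX4 Y hXY hYX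
  obtain ⟨_, _, h3, _⟩ := hX Y hXY (by omega)
  refine le_trans ?_ h3
  have h1 : N {m | Rough f r m} X (X + Y) = co (Sh {m | Rough f r m} X Y) Y (2 * Y) := by
    rw [co_Sh _ _ _ _ _ (by omega)]
    congr 1 <;> omega
  rw [h1]
  have h2 : co (Sh {m | Rough f r m} X Y) Y (2 * Y) ≤
      co (Pool.Agent.TH464.PW.Rgh f (2 * r) X Y) 0 (4 * Y) := by
    unfold co
    apply card_le_card
    intro n hn
    rw [mem_filter, mem_Ioc] at hn ⊢
    refine ⟨⟨by omega, by omega⟩, ?_⟩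
    exact rgh_of_rough f r X Y (by omega) hX4 hYX {m | Rough f r m} (fun m hm => hm) n hn.2
  exact_mod_cast h2

open Classical in
lemma N_or (A B S : Set ℕ) (a b : ℕ) (h : ∀ m, a < m → m ≤ b → m ∈ S → m ∈ A ∨ m ∈ B) :
    N S a b ≤ N A a b + N B a b := by
  unfold N
  refine le_trans (card_le_card ?_) (card_union_le _ _)
  intro m hm
  obtain ⟨h1, h2⟩ := mem_filter.1 hm
  rw [mem_Ioc] at h1
  rcases h m h1.1 h1.2 h2 with h3 | h3
  · exact mem_union_left _ (mem_filter.2 ⟨mem_Ioc.2 h1, h3⟩)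
  · exact mem_union_right _ (mem_filter.2 ⟨mem_Ioc.2 h1, h3⟩)

end Pool.Agent.L5helper16.RG
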